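import Pool.Agent.H19.RK.Mod

/-! CIC: the circle inequality for complex functions. -/

open MeasureTheory Set Filter Topology

namespace Pool.Agent.H19.RK

open Pool.Agent.H92.RK

theorem pf_CIC (hCI : T_CI) : T_CIC := by
  intro k g g' X hk h hT hX
  have hpi := Real.pi_pos
  have hg : Continuous g := continuous_iff_continuousAt.2 fun t => (h.1 t).continuousAt
  have hg' := h.2
  have hk0 : 0 < k := by omega
  have hk1 : (6 : ℝ) ≤ k := by exact_mod_cast hk
  have hX0 : 0 < X := by linarith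
  have hrc : ∀ φ : ℝ → ℝ, Continuous φ → Continuous fun t => φ t ^ (2 / 3 : ℝ) := fun φ hφ =>
    hφ.rpow_const fun _ => Or.inr (by norm_num)
  have key : ∀ δ : ℝ, 0 < δ → ∫ θ in (-Real.pi)..Real.pi, ‖g θ‖ ^ 2 ≤
      Real.pi ^ 2 / (225 * X) * (∫ θ in (-Real.pi)..Real.pi, ‖g' θ‖ ^ 2) +
      X / (4 * Real.pi ^ 2) *
        ((∫ θ in (-Real.pi)..Real.pi, ‖g θ‖ ^ (2 / 3 : ℝ)) + 2 * Real.pi * δ) ^ 3 := by
    intro δ hδ
    obtain ⟨ε, hε, hεδ⟩ : ∃ ε : ℝ, 0 < ε ∧ ε ^ (2 / 3 : ℝ) = δ := by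
      refine ⟨δ ^ (3 / 2 : ℝ), by positivity, ?_⟩
      rw [← Real.rpow_mul hδ.le]
      norm_num
    have hGc := md_continuous h hε
    have hG'c := md'_continuous h hε
    have hGp := md_periodic (ε := ε) hT
    have hG'p := md'_periodic h hε hT
    have hC1 : C1 (fun x => md g ε (2 * Real.pi / k * x))
        (fun x => 2 * Real.pi / k * md' g g' ε (2 * Real.pi / k * x)) := by
      refine ⟨fun x => ?_, by fun_prop⟩
      have d1 : HasDerivAt (fun x : ℝ => 2 * Real.pi / k * x) (2 * Real.pi / k) x := by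
        simpa using (hasDerivAt_id x).const_mul (2 * Real.pi / k)
      have d2 := (md_hasDerivAt h hε (2 * Real.pi / k * x)).comp x d1
      refine HasDerivAt.congr_deriv d2 ?_
      exact mul_comm _ _
    have h1 := hCI _ _ X hC1 (fun x => (md_pos hε _).le) (fun x => by
      have := hGp (2 * Real.pi / k * x)
      rw [← this]
      congr 1
      ring) hX
    have p2 := int_periods hk0 (φ := fun t => md g ε t ^ 2) (by fun_prop)
      (fun t => by simp only; rw [hGp t])
    have p3 := int_periods hk0 (φ := fun t => md g ε t ^ (2 / 3 : ℝ)) (hrc _ hGc)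
      (fun t => by simp only; rw [hGp t])
    have p4 := int_periods hk0 (φ := fun t => md' g g' ε t ^ 2) (by fun_prop)
      (fun t => by simp only; rw [hG'p t])
    have p5 : ∫ x in (0 : ℝ)..1, (2 * Real.pi / k * md' g g' ε (2 * Real.pi / k * x)) ^ 2 =
        (2 * Real.pi / k) ^ 2 * ∫ x in (0 : ℝ)..1, md' g g' ε (2 * Real.pi / k * x) ^ 2 := by
      rw [← intervalIntegral.integral_const_mul]
      congr 1
      funext x
      ring
    rw [p5, p2, p3, p4] at h1
    have i1 : ∫ θ in (-Real.pi)..Real.pi, ‖g θ‖ ^ 2 ≤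
        ∫ θ in (-Real.pi)..Real.pi, md g ε θ ^ 2 := by
      apply intervalIntegral.integral_mono_on (by linarith)
        (Continuous.intervalIntegrable (by fun_prop) _ _)
        (Continuous.intervalIntegrable (by fun_prop) _ _)
      intro t _
      rw [md_sq]
      have := sq_nonneg ε
      linarith
    have i2 : ∫ θ in (-Real.pi)..Real.pi, md' g g' ε θ ^ 2 ≤
        ∫ θ in (-Real.pi)..Real.pi, ‖g' θ‖ ^ 2 := by
      apply intervalIntegral.integral_mono_on (by linarith)
        (Continuous.intervalIntegrable (by fun_prop) _ _)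
        (Continuous.intervalIntegrable (by fun_prop) _ _)
      intro t _
      exact md'_sq_le hε t
    have i3 : ∫ θ in (-Real.pi)..Real.pi, md g ε θ ^ (2 / 3 : ℝ) ≤
        (∫ θ in (-Real.pi)..Real.pi, ‖g θ‖ ^ (2 / 3 : ℝ)) + 2 * Real.pi * δ := by
      have hgn : Continuous fun t => ‖g t‖ ^ (2 / 3 : ℝ) := hrc _ hg.norm
      have hmd : Continuous fun t => md g ε t ^ (2 / 3 : ℝ) := hrc _ hGc
      have : (∫ θ in (-Real.pi)..Real.pi, ‖g θ‖ ^ (2 / 3 : ℝ)) + 2 * Real.pi * δ =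
          ∫ θ in (-Real.pi)..Real.pi, (‖g θ‖ ^ (2 / 3 : ℝ) + δ) := by
        rw [intervalIntegral.integral_add (hgn.intervalIntegrable _ _)
          (Continuous.intervalIntegrable (by fun_prop) _ _), intervalIntegral.integral_const,
          smul_eq_mul]
        ring
      rw [this]
      apply intervalIntegral.integral_mono_on (by linarith)
        (hmd.intervalIntegrable _ _)
        ((hgn.add continuous_const).intervalIntegrable _ _)
      intro t _
      calc md g ε t ^ (2 / 3 : ℝ) ≤ (‖g t‖ + ε) ^ (2 / 3 : ℝ) :=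
            Real.rpow_le_rpow (md_pos hε t).le (md_le hε t) (by norm_num)
        _ ≤ ‖g t‖ ^ (2 / 3 : ℝ) + ε ^ (2 / 3 : ℝ) :=
            Real.rpow_add_le_add_rpow (norm_nonneg _) hε.le (by norm_num) (by norm_num)
        _ = ‖g t‖ ^ (2 / 3 : ℝ) + δ := by rw [hεδ]
    have i4 : 0 ≤ ∫ θ in (-Real.pi)..Real.pi, md g ε θ ^ (2 / 3 : ℝ) := by
      apply intervalIntegral.integral_nonneg (by linarith)
      intro t _
      exact Real.rpow_nonneg (md_pos hε t).le _
    have i5 : 0 ≤ ∫ θ in (-Real.pi)..Real.pi, md' g g' ε θ ^ 2 := by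
      apply intervalIntegral.integral_nonneg (by linarith)
      intro t _
      positivity
    have h2 : ∫ θ in (-Real.pi)..Real.pi, md g ε θ ^ 2 ≤
        (4 * Real.pi ^ 2 / k ^ 2) / (25 * X) * (∫ θ in (-Real.pi)..Real.pi, md' g g' ε θ ^ 2) +
        X / (4 * Real.pi ^ 2) * (∫ θ in (-Real.pi)..Real.pi, md g ε θ ^ (2 / 3 : ℝ)) ^ 3 := by
      have := mul_le_mul_of_nonneg_left h1 (show 0 ≤ 2 * Real.pi by positivity)
      have hk2 : (k : ℝ) ≠ 0 := by positivity
      calc ∫ θ in (-Real.pi)..Real.pi, md g ε θ ^ 2 =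
            2 * Real.pi * (1 / (2 * Real.pi) * ∫ θ in (-Real.pi)..Real.pi, md g ε θ ^ 2) := by
            field_simp
        _ ≤ _ := this
        _ = _ := by
            field_simp
            ring
    have h3 : (4 * Real.pi ^ 2 / k ^ 2) / (25 * X) ≤ Real.pi ^ 2 / (225 * X) := by
      rw [div_div, div_le_div_iff₀ (by positivity) (by positivity)]
      have hk3 : (36 : ℝ) ≤ k ^ 2 := by nlinarith
      have : 0 ≤ Real.pi ^ 2 * X := by positivity
      nlinarith
    calc ∫ θ in (-Real.pi)..Real.pi, ‖g θ‖ ^ 2 ≤ _ := i1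
      _ ≤ _ := h2
      _ ≤ _ := by gcongr
  have lim : Tendsto (fun δ : ℝ =>
      Real.pi ^ 2 / (225 * X) * (∫ θ in (-Real.pi)..Real.pi, ‖g' θ‖ ^ 2) +
      X / (4 * Real.pi ^ 2) *
        ((∫ θ in (-Real.pi)..Real.pi, ‖g θ‖ ^ (2 / 3 : ℝ)) + 2 * Real.pi * δ) ^ 3) (𝓝[>] 0)
      (𝓝 (Real.pi ^ 2 / (225 * X) * (∫ θ in (-Real.pi)..Real.pi, ‖g' θ‖ ^ 2) +
      X / (4 * Real.pi ^ 2) *
        ((∫ θ in (-Real.pi)..Real.pi, ‖g θ‖ ^ (2 / 3 : ℝ)) + 2 * Real.pi * 0) ^ 3)) := by
    apply Tendsto.mono_left _ nhdsWithin_le_nhds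
    exact Continuous.tendsto (by fun_prop) _
  rw [mul_zero, add_zero] at lim
  refine ge_of_tendsto lim ?_
  filter_upwards [self_mem_nhdsWithin] with δ hδ
  exact key δ hδ

end Pool.Agent.H19.RK
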