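import Pool.Agent.H92.RK.Targets

/-! FAR: circles of large radius. -/

open MeasureTheory Set
open scoped ENNReal

namespace Pool.Agent.H19.RK

open Pool.Agent.H92.RK

theorem pf_FAR (hFOU : T_FOU) (hCIC : T_CIC) (hHOL : T_HOL) : T_FAR := by
  intro k s τ x g g' ρ hk hs hτ1 hτ2 hx h hQ hρ hρi hρ0
  have hpi := Real.pi_pos
  have hg : Continuous g := continuous_iff_continuousAt.2 fun t => (h.1 t).continuousAt
  have hg' := h.2
  have hk0 : 0 < k := by omega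
  have hnorm : ∀ θ, ‖g (θ + 2 * Real.pi / k)‖ = ‖g θ‖ := by
    intro θ
    rw [hQ θ, norm_mul, Complex.norm_exp_ofReal_mul_I, one_mul]
  have hne : ∀ n : ℤ, (k : ℤ) ∣ n - s → (1 : ℝ) ≤ (n : ℝ) ^ 2 := by
    intro n hn
    have hn0 : n ≠ 0 := by
      rintro rfl
      rw [zero_sub, dvd_neg] at hn
      exact hs hn
    have : (1 : ℤ) ≤ n ^ 2 := by
      have := sq_pos_of_ne_zero hn0
      omega
    exact_mod_cast this
  have first : ∫ θ in (-Real.pi)..Real.pi, ‖g θ‖ ^ 2 ≤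
      ∫ θ in (-Real.pi)..Real.pi, ‖g' θ‖ ^ 2 := by
    have h1 := hFOU k s s 1 g g' hk0 h hQ (by simp) (fun n hn _ => hne n hn)
    have h2 := hne s (by simp)
    have h3 : (1 - (s : ℝ) ^ 2) / (2 * Real.pi) *
        ‖∫ θ in (-Real.pi)..Real.pi, g θ * Complex.exp (-((s : ℂ) * θ * Complex.I))‖ ^ 2 ≤ 0 := by
      apply mul_nonpos_of_nonpos_of_nonneg
      · exact div_nonpos_of_nonpos_of_nonneg (by linarith) (by positivity)
      · positivity
    linarith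
  refine ⟨first, ?_⟩
  obtain ⟨n, hn⟩ : ∃ n, n = ∫ θ in (-Real.pi)..Real.pi, ‖g θ‖ ^ 2 := ⟨_, rfl⟩
  obtain ⟨e, he⟩ : ∃ e, e = ∫ θ in (-Real.pi)..Real.pi, ‖g' θ‖ ^ 2 := ⟨_, rfl⟩
  obtain ⟨H, hH⟩ : ∃ H, H = (∫ θ in (-Real.pi)..Real.pi, ‖g θ‖ ^ (2 / 3 : ℝ)) ^ 3 /
    (4 * Real.pi ^ 2) := ⟨_, rfl⟩
  have hn0 : 0 ≤ n := by
    rw [hn]
    exact intervalIntegral.integral_nonneg (by linarith) fun t _ => by positivity
  have he0 : 0 ≤ e := by
    rw [he]
    exact intervalIntegral.integral_nonneg (by linarith) fun t _ => by positivity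
  have hH0 : 0 ≤ H := by
    rw [hH]
    have : 0 ≤ ∫ θ in (-Real.pi)..Real.pi, ‖g θ‖ ^ (2 / 3 : ℝ) :=
      intervalIntegral.integral_nonneg (by linarith) fun t _ =>
        Real.rpow_nonneg (norm_nonneg _) _
    positivity
  rw [← hn, ← he] at first
  rw [← hn, ← he]
  have hx0 : 0 < x := by linarith
  have hτ0 : 0 < τ := by linarith
  -- the real inequality
  have real : 4 * τ * n ≤ (e - n) / x + 4 * τ * x * H := by
    obtain ⟨Λ, hΛ⟩ : ∃ Λ, Λ = 4 * τ + 1 / x := ⟨_, rfl⟩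
    have hix : 1 / x ≤ 2 / 3 := by
      rw [div_le_div_iff₀ hx0 (by norm_num)]
      linarith
    have hix0 : 0 < 1 / x := by positivity
    have hΛ0 : 0 < Λ := by rw [hΛ]; positivity
    have hΛx : Λ * x = 4 * τ * x + 1 := by
      rw [hΛ]
      field_simp
    have hX : 5 / 4 ≤ 4 * τ * x / Λ := by
      rw [le_div_iff₀ hΛ0, hΛ]
      nlinarith
    have h1 := hCIC k g g' (4 * τ * x / Λ) hk h hnorm hX
    rw [← hn, ← he] at h1
    have h2 : 4 * τ * x / Λ / (4 * Real.pi ^ 2) *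
        (∫ θ in (-Real.pi)..Real.pi, ‖g θ‖ ^ (2 / 3 : ℝ)) ^ 3 = 4 * τ * x / Λ * H := by
      rw [hH]
      ring
    rw [h2] at h1
    have h3 := mul_le_mul_of_nonneg_left h1 hΛ0.le
    have h4 : Λ * (Real.pi ^ 2 / (225 * (4 * τ * x / Λ)) * e + 4 * τ * x / Λ * H) =
        Real.pi ^ 2 * Λ ^ 2 / (900 * τ) * (e / x) + 4 * τ * x * H := by
      field_simp
      ring
    rw [h4] at h3
    have hpi2 : Real.pi ^ 2 ≤ 10 := by
      have := Real.pi_lt_d2
      nlinarith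
    have h5 : Real.pi ^ 2 * Λ ^ 2 / (900 * τ) ≤ 1 := by
      rw [div_le_one (by positivity)]
      have h6 : Λ ≤ 4 * τ + 2 / 3 := by rw [hΛ]; linarith
      have h7 : Λ ^ 2 ≤ 90 * τ := by
        calc Λ ^ 2 ≤ (4 * τ + 2 / 3) ^ 2 := by gcongr
          _ ≤ 90 * τ := by nlinarith
      calc Real.pi ^ 2 * Λ ^ 2 ≤ 10 * (90 * τ) := by gcongr
        _ = 900 * τ := by ring
    have h8 : Real.pi ^ 2 * Λ ^ 2 / (900 * τ) * (e / x) ≤ 1 * (e / x) := by gcongr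
    have h9 : Λ * n = 4 * τ * n + n / x := by
      rw [hΛ]
      ring
    have h10 : (e - n) / x = e / x - n / x := by ring
    rw [h9] at h3
    rw [h10]
    linarith
  have h1 := hHOL (fun θ => ‖g θ‖) ρ hg.norm (fun θ => norm_nonneg _) hρ hρi
    (fun θ h0 => by rw [hρ0 θ h0, norm_zero])
  rw [← hH] at h1
  have h2 : ∫⁻ θ in Ioo (-Real.pi) Real.pi,
      ENNReal.ofReal (4 * τ * x) / ρ θ ^ 2 * ENNReal.ofReal (‖g θ‖ ^ 2) =
      ENNReal.ofReal (4 * τ * x) *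
        ∫⁻ θ in Ioo (-Real.pi) Real.pi, ENNReal.ofReal (‖g θ‖ ^ 2) / ρ θ ^ 2 := by
    rw [← lintegral_const_mul' _ _ ENNReal.ofReal_ne_top]
    congr 1
    funext θ
    simp only [div_eq_mul_inv]
    ring
  rw [h2]
  calc ENNReal.ofReal (4 * τ * n) ≤ ENNReal.ofReal ((e - n) / x + 4 * τ * x * H) :=
        ENNReal.ofReal_le_ofReal real
    _ = ENNReal.ofReal ((e - n) / x) + ENNReal.ofReal (4 * τ * x) * ENNReal.ofReal H := by
        rw [ENNReal.ofReal_add (div_nonneg (by linarith) hx0.le) (by positivity),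
          ENNReal.ofReal_mul (by positivity)]
    _ ≤ _ := by gcongr

end Pool.Agent.H19.RK
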