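import Pool.Agent.H92.RK.Targets

/-! The regularised modulus of a complex function of one real variable. -/

open MeasureTheory Set

namespace Pool.Agent.H19.RK

open Pool.Agent.H92.RK

/-- the regularised modulus -/
noncomputable def md (g : ℝ → ℂ) (ε : ℝ) (t : ℝ) : ℝ := Real.sqrt (‖g t‖ ^ 2 + ε ^ 2)

/-- its derivative -/
noncomputable def md' (g g' : ℝ → ℂ) (ε : ℝ) (t : ℝ) : ℝ :=
  ((g t).re * (g' t).re + (g t).im * (g' t).im) / md g ε t

variable {g g' : ℝ → ℂ} {ε : ℝ}

theorem md_pos (hε : 0 < ε) (t : ℝ) : 0 < md g ε t := Real.sqrt_pos.2 (by positivity)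

theorem norm_sq_eq (z : ℂ) : ‖z‖ ^ 2 = z.re ^ 2 + z.im ^ 2 := by
  rw [← Complex.normSq_eq_norm_sq, Complex.normSq_apply]; ring

theorem md_sq (t : ℝ) : md g ε t ^ 2 = ‖g t‖ ^ 2 + ε ^ 2 := Real.sq_sqrt (by positivity)

theorem norm_le_md (t : ℝ) : ‖g t‖ ≤ md g ε t := by
  apply Real.le_sqrt_of_sq_le
  have := sq_nonneg ε
  linarith

theorem md_le (hε : 0 < ε) (t : ℝ) : md g ε t ≤ ‖g t‖ + ε := by
  apply Real.sqrt_le_iff.2
  have := norm_nonneg (g t)
  constructor
  · positivity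
  · nlinarith

theorem md_hasDerivAt (h : C1 g g') (hε : 0 < ε) (t : ℝ) :
    HasDerivAt (md g ε) (md' g g' ε t) t := by
  have hg := h.1 t
  have h1 : HasDerivAt (fun t => (g t).re) (g' t).re t :=
    (Complex.reCLM.hasFDerivAt (x := g t)).comp_hasDerivAt t hg
  have h2 : HasDerivAt (fun t => (g t).im) (g' t).im t :=
    (Complex.imCLM.hasFDerivAt (x := g t)).comp_hasDerivAt t hg
  have h3 : HasDerivAt (fun t => (g t).re ^ 2 + (g t).im ^ 2 + ε ^ 2)
      (2 * ((g t).re * (g' t).re + (g t).im * (g' t).im)) t := by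
    have := ((h1.pow 2).add (h2.pow 2)).add_const (ε ^ 2)
    refine HasDerivAt.congr_deriv this ?_
    simp
    ring
  have hne : (g t).re ^ 2 + (g t).im ^ 2 + ε ^ 2 ≠ 0 := by positivity
  have h4 := h3.sqrt hne
  have h5 : (fun t => Real.sqrt ((g t).re ^ 2 + (g t).im ^ 2 + ε ^ 2)) = md g ε := by
    funext t
    unfold md
    rw [norm_sq_eq]
  rw [h5] at h4
  refine HasDerivAt.congr_deriv h4 ?_
  have h6 : Real.sqrt ((g t).re ^ 2 + (g t).im ^ 2 + ε ^ 2) = md g ε t := congrFun h5 t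
  rw [h6]
  unfold md'
  have := md_pos (g := g) hε t
  field_simp

theorem md_continuous (h : C1 g g') (hε : 0 < ε) : Continuous (md g ε) :=
  continuous_iff_continuousAt.2 fun t => (md_hasDerivAt h hε t).continuousAt

theorem md'_continuous (h : C1 g g') (hε : 0 < ε) : Continuous (md' g g' ε) := by
  have hg : Continuous g := continuous_iff_continuousAt.2 fun t => (h.1 t).continuousAt
  have hg' := h.2
  unfold md'
  refine Continuous.div ?_ (md_continuous h hε) fun t => (md_pos hε t).ne'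
  fun_prop

theorem md'_sq_le (hε : 0 < ε) (t : ℝ) : md' g g' ε t ^ 2 ≤ ‖g' t‖ ^ 2 := by
  have hp := md_pos (g := g) hε t
  unfold md'
  rw [div_pow, div_le_iff₀ (by positivity), md_sq, norm_sq_eq, norm_sq_eq]
  nlinarith [sq_nonneg ((g t).re * (g' t).im - (g t).im * (g' t).re),
    mul_nonneg (sq_nonneg ε) (add_nonneg (sq_nonneg (g' t).re) (sq_nonneg (g' t).im))]

theorem md_periodic {T : ℝ} (hT : ∀ t, ‖g (t + T)‖ = ‖g t‖) : Function.Periodic (md g ε) T := by
  intro t
  unfold md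
  rw [hT]

theorem md'_periodic (h : C1 g g') (hε : 0 < ε) {T : ℝ} (hT : ∀ t, ‖g (t + T)‖ = ‖g t‖) :
    Function.Periodic (md' g g' ε) T := by
  intro t
  have h1 : HasDerivAt (md g ε) (md' g g' ε (t + T)) (t + T) := md_hasDerivAt h hε (t + T)
  have h2 : HasDerivAt (fun s => md g ε (s + T)) (md' g g' ε (t + T)) t := by
    have := h1.comp_add_const t T
    exact this
  have h3 : (fun s => md g ε (s + T)) = md g ε := funext fun s => md_periodic hT s
  rw [h3] at h2
  exact h2.unique (md_hasDerivAt h hε t)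

/-- integral over `k` periods -/
theorem int_periods {k : ℕ} (hk : 0 < k) {φ : ℝ → ℝ} (hφ : Continuous φ)
    (hp : Function.Periodic φ (2 * Real.pi / k)) :
    ∫ x in (0 : ℝ)..1, φ (2 * Real.pi / k * x) =
      1 / (2 * Real.pi) * ∫ θ in (-Real.pi)..Real.pi, φ θ := by
  have hk' : (k : ℝ) ≠ 0 := by positivity
  have hpi := Real.pi_pos
  have hT : 2 * Real.pi / k ≠ 0 := by positivity
  have h1 := hp.intervalIntegral_add_zsmul_eq (k : ℤ) (-Real.pi)
    (fun t₁ t₂ => hφ.intervalIntegrable _ _)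
  have h2 : -Real.pi + (k : ℤ) • (2 * Real.pi / k) = Real.pi := by
    rw [zsmul_eq_mul]
    push_cast
    field_simp
    ring
  rw [h2] at h1
  have h3 := hp.intervalIntegral_add_eq (-Real.pi) 0
  rw [zero_add] at h3
  rw [h1, h3, intervalIntegral.integral_comp_mul_left φ hT]
  rw [mul_zero, mul_one, zsmul_eq_mul, smul_eq_mul]
  push_cast
  field_simp

end Pool.Agent.H19.RK
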