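import Pool.Agent.H92.RK.Targets

/-! N2: the radial inequality on `[r₁, r₂]`. -/

open MeasureTheory Set

namespace Pool.Agent.H19.RK

open Pool.Agent.H92.RK

theorem r1_bounds : (589 / 1000 : ℝ) < r₁ := by
  unfold r₁
  rw [show (589 / 1000 : ℝ) = Real.sqrt ((589 / 1000) ^ 2) from (Real.sqrt_sq (by norm_num)).symm]
  exact Real.sqrt_lt_sqrt (by norm_num) (by norm_num)

theorem r2_bounds : r₂ ≤ (13785 / 10000 : ℝ) := by
  unfold r₂
  rw [show (13785 / 10000 : ℝ) = Real.sqrt ((13785 / 10000) ^ 2) from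
    (Real.sqrt_sq (by norm_num)).symm]
  exact Real.sqrt_le_sqrt (by norm_num)

theorem r1_le_r2 : r₁ ≤ r₂ := Real.sqrt_le_sqrt (by norm_num)

theorem pf_N2 : T_N2 := by
  intro b b' ⟨hb, hb'⟩ h1 h2
  have hbc : Continuous b := continuous_iff_continuousAt.2 fun x => (hb x).continuousAt
  have hr1 := r1_bounds
  have hr2 := r2_bounds
  have hr12 := r1_le_r2
  obtain ⟨κ, hκ⟩ : ∃ κ : ℝ, κ = 3965 / 1000 := ⟨_, rfl⟩
  obtain ⟨c, hc⟩ : ∃ c : ℝ, c = 589 / 1000 := ⟨_, rfl⟩
  rw [← hc] at hr1
  have hsin : ∀ r ∈ Icc r₁ r₂, 0 < Real.sin (κ * (r - c)) := by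
    intro r hr
    have hκ0 : 0 < κ := by rw [hκ]; norm_num
    apply Real.sin_pos_of_pos_of_lt_pi
    · exact mul_pos hκ0 (by linarith [hr.1])
    · have h3 : r - c ≤ 13785 / 10000 - 589 / 1000 := by rw [hc]; linarith [hr.2]
      have h4 : κ * (r - c) ≤ κ * (13785 / 10000 - 589 / 1000) :=
        mul_le_mul_of_nonneg_left h3 hκ0.le
      have h5 : κ * (13785 / 10000 - 589 / 1000) < 3.14 := by rw [hκ]; norm_num
      linarith [Real.pi_gt_d2]
  set P : ℝ → ℝ := fun r => -(1 / 2) + r * κ * (Real.cos (κ * (r - c)) / Real.sin (κ * (r - c)))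
    with hP
  set P' : ℝ → ℝ := fun r => κ * (Real.cos (κ * (r - c)) / Real.sin (κ * (r - c))) -
    r * κ ^ 2 / Real.sin (κ * (r - c)) ^ 2 with hP'
  have hPd : ∀ r ∈ Icc r₁ r₂, HasDerivAt P (P' r) r := by
    intro r hr
    have hs := (hsin r hr).ne'
    have d0 : HasDerivAt (fun r : ℝ => κ * (r - c)) κ r := by
      simpa using ((hasDerivAt_id r).sub_const c).const_mul κ
    have d1 := (Real.hasDerivAt_cos (κ * (r - c))).comp r d0
    have d2 := (Real.hasDerivAt_sin (κ * (r - c))).comp r d0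
    have d3 := d1.div d2 hs
    have d4 := ((hasDerivAt_id r).mul_const κ).mul d3
    have d5 := d4.const_add (-(1 / 2) : ℝ)
    have hcs := Real.sin_sq_add_cos_sq (κ * (r - c))
    refine HasDerivAt.congr_deriv d5 ?_
    simp only [hP', id_eq, Pi.div_apply, Function.comp_apply, one_mul]
    field_simp
    linear_combination (-(κ * r)) * hcs
  have hcont : ContinuousOn P' (Icc r₁ r₂) := by
    intro r hr
    have hs := (hsin r hr).ne'
    apply ContinuousAt.continuousWithinAt
    have : Real.sin (κ * (r - c)) ^ 2 ≠ 0 := pow_ne_zero 2 hs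
    simp only [hP']
    refine ContinuousAt.sub (continuousAt_const.mul (ContinuousAt.div (by fun_prop)
      (by fun_prop) hs)) (ContinuousAt.div (by fun_prop) (by fun_prop) this)
  have hPc : ContinuousOn P (Icc r₁ r₂) := fun r hr => (hPd r hr).continuousAt.continuousWithinAt
  set G : ℝ → ℝ := fun r => P' r * b r ^ 2 + P r * (2 * b r * b' r) with hG
  have hGd : ∀ r ∈ uIcc r₁ r₂, HasDerivAt (fun r => P r * b r ^ 2) (G r) r := by
    intro r hr
    rw [uIcc_of_le hr12] at hr
    have := (hPd r hr).mul ((hb r).pow 2)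
    refine HasDerivAt.congr_deriv this ?_
    simp [hG]
  have hGc : ContinuousOn G (uIcc r₁ r₂) := by
    rw [uIcc_of_le hr12]
    exact (hcont.mul (hbc.pow 2).continuousOn).add
      (hPc.mul ((continuous_const.mul hbc).mul hb').continuousOn)
  have hint : ∫ r in r₁..r₂, G r = 0 := by
    rw [intervalIntegral.integral_eq_sub_of_hasDerivAt hGd hGc.intervalIntegrable, h1, h2]
    simp
  have hle : ∫ r in r₁..r₂, G r ≤ ∫ r in r₁..r₂, (b' r ^ 2 * r - 15 * (b r ^ 2 * r)) := by
    apply intervalIntegral.integral_mono_on hr12 hGc.intervalIntegrable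
    · exact (Continuous.intervalIntegrable (by fun_prop) _ _)
    · intro r hr
      have hs := hsin r hr
      have hrp : 0 < r := by
        have h8 : r₁ ≤ r := hr.1
        linarith
      have hrr : 7 / 20 ≤ r ^ 2 := by
        have h7 : r₁ ^ 2 = 7 / 20 := by unfold r₁; rw [Real.sq_sqrt (by norm_num)]
        have h8 : r₁ ≤ r := hr.1
        have h9 : 0 < r₁ := by linarith
        nlinarith
      have hcs := Real.sin_sq_add_cos_sq (κ * (r - c))
      set q := Real.cos (κ * (r - c)) / Real.sin (κ * (r - c)) with hq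
      have e1 : P' r = κ * q - r * κ ^ 2 * (1 + q ^ 2) := by
        simp only [hP']
        rw [← hq]
        congr 1
        rw [hq]
        field_simp
        linear_combination (-(1 : ℝ)) * hcs
      have e2 : P r = -(1 / 2) + r * κ * q := rfl
      simp only [hG]
      rw [e1, e2]
      -- `r (b' - ψ b)^2 + (r (κ^2 - 15) - 1/(4 r)) b^2`
      have key : b' r ^ 2 * r - 15 * (b r ^ 2 * r) -
          ((κ * q - r * κ ^ 2 * (1 + q ^ 2)) * b r ^ 2 +
            (-(1 / 2) + r * κ * q) * (2 * b r * b' r)) =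
          r * (b' r - (-(1 / (2 * r)) + κ * q) * b r) ^ 2 +
            (r * (κ ^ 2 - 15) - 1 / (4 * r)) * b r ^ 2 := by
        field_simp
        ring
      have hpos : 0 ≤ r * (κ ^ 2 - 15) - 1 / (4 * r) := by
        rw [sub_nonneg, div_le_iff₀ (by positivity)]
        have : κ ^ 2 - 15 = 721225 / 1000000 := by rw [hκ]; norm_num
        rw [this]
        nlinarith
      have : 0 ≤ r * (b' r - (-(1 / (2 * r)) + κ * q) * b r) ^ 2 +
            (r * (κ ^ 2 - 15) - 1 / (4 * r)) * b r ^ 2 := by positivity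
      linarith
  rw [hint, intervalIntegral.integral_sub, intervalIntegral.integral_const_mul] at hle
  · linarith
  · exact (Continuous.intervalIntegrable (by fun_prop) _ _)
  · exact (Continuous.intervalIntegrable (by fun_prop) _ _)

end Pool.Agent.H19.RK
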