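import Pool.Agent.H19.RK.Mod

/-! WIR: the Wirtinger inequality for the modulus. -/

open MeasureTheory Set Filter Topology

namespace Pool.Agent.H19.RK

open Pool.Agent.H92.RK

theorem pf_WIR (hFOU : T_FOU) : T_WIR := by
  intro k g g' hk h hT
  have hpi := Real.pi_pos
  have hg : Continuous g := continuous_iff_continuousAt.2 fun t => (h.1 t).continuousAt
  have hg' := h.2
  have hk0 : (0 : ℝ) < k := by exact_mod_cast hk
  have key : ∀ ε : ℝ, 0 < ε → (k : ℝ) ^ 2 * ((∫ θ in (-Real.pi)..Real.pi, ‖g θ‖ ^ 2) -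
      ((∫ θ in (-Real.pi)..Real.pi, ‖g θ‖) + 2 * Real.pi * ε) ^ 2 / (2 * Real.pi)) ≤
      ∫ θ in (-Real.pi)..Real.pi, ‖g' θ‖ ^ 2 := by
    intro ε hε
    have hGc := md_continuous h hε
    have hG'c := md'_continuous h hε
    have hC1 : C1 (fun t => (md g ε t : ℂ)) (fun t => (md' g g' ε t : ℂ)) := by
      refine ⟨fun t => ?_, by fun_prop⟩
      exact (md_hasDerivAt h hε t).ofReal_comp
    have hQ : QPc k 0 (fun t => (md g ε t : ℂ)) := by
      intro θ
      simp only [Int.cast_zero, mul_zero, zero_div, Complex.ofReal_zero, zero_mul,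
        Complex.exp_zero, one_mul]
      rw [md_periodic hT θ]
    have h1 := hFOU k 0 0 ((k : ℝ) ^ 2) _ _ hk hC1 hQ (by simp) (by
      intro n hn hn0
      rw [sub_zero] at hn
      have h2 : (k : ℤ) ≤ |n| := Int.le_of_dvd (abs_pos.2 hn0) ((dvd_abs _ _).2 hn)
      have h3 : (k : ℝ) ≤ |(n : ℝ)| := by exact_mod_cast h2
      calc (k : ℝ) ^ 2 ≤ |(n : ℝ)| ^ 2 := by gcongr
        _ = (n : ℝ) ^ 2 := sq_abs _)
    have e1 : ∀ x : ℝ, ‖(x : ℂ)‖ ^ 2 = x ^ 2 := fun x => by
      rw [Complex.norm_real, Real.norm_eq_abs, sq_abs]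
    simp only [e1, Int.cast_zero, zero_mul, neg_zero, Complex.exp_zero, mul_one] at h1
    rw [intervalIntegral.integral_ofReal, e1] at h1
    have i1 : ∫ θ in (-Real.pi)..Real.pi, ‖g θ‖ ^ 2 ≤
        ∫ θ in (-Real.pi)..Real.pi, md g ε θ ^ 2 := by
      apply intervalIntegral.integral_mono_on (by linarith)
        (Continuous.intervalIntegrable (by fun_prop) _ _)
        (Continuous.intervalIntegrable (by fun_prop) _ _)
      intro t _
      rw [md_sq]
      have := sq_nonneg ε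
      linarith
    have i2 : ∫ θ in (-Real.pi)..Real.pi, md' g g' ε θ ^ 2 ≤
        ∫ θ in (-Real.pi)..Real.pi, ‖g' θ‖ ^ 2 := by
      apply intervalIntegral.integral_mono_on (by linarith)
        (Continuous.intervalIntegrable (by fun_prop) _ _)
        (Continuous.intervalIntegrable (by fun_prop) _ _)
      intro t _
      exact md'_sq_le hε t
    have i3 : ∫ θ in (-Real.pi)..Real.pi, md g ε θ ≤
        (∫ θ in (-Real.pi)..Real.pi, ‖g θ‖) + 2 * Real.pi * ε := by
      have : (∫ θ in (-Real.pi)..Real.pi, ‖g θ‖) + 2 * Real.pi * ε =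
          ∫ θ in (-Real.pi)..Real.pi, (‖g θ‖ + ε) := by
        rw [intervalIntegral.integral_add (Continuous.intervalIntegrable (by fun_prop) _ _)
          (Continuous.intervalIntegrable (by fun_prop) _ _), intervalIntegral.integral_const,
          smul_eq_mul]
        ring
      rw [this]
      apply intervalIntegral.integral_mono_on (by linarith)
        (Continuous.intervalIntegrable (by fun_prop) _ _)
        (Continuous.intervalIntegrable (by fun_prop) _ _)
      intro t _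
      exact md_le hε t
    have i4 : 0 ≤ ∫ θ in (-Real.pi)..Real.pi, md g ε θ := by
      apply intervalIntegral.integral_nonneg (by linarith)
      intro t _
      exact (md_pos hε t).le
    have i5 : (∫ θ in (-Real.pi)..Real.pi, md g ε θ) ^ 2 / (2 * Real.pi) ≤
        ((∫ θ in (-Real.pi)..Real.pi, ‖g θ‖) + 2 * Real.pi * ε) ^ 2 / (2 * Real.pi) := by
      gcongr
    have i6 : (k : ℝ) ^ 2 * ((∫ θ in (-Real.pi)..Real.pi, ‖g θ‖ ^ 2) -
        ((∫ θ in (-Real.pi)..Real.pi, ‖g θ‖) + 2 * Real.pi * ε) ^ 2 / (2 * Real.pi)) ≤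
        (k : ℝ) ^ 2 * ((∫ θ in (-Real.pi)..Real.pi, md g ε θ ^ 2) -
          (∫ θ in (-Real.pi)..Real.pi, md g ε θ) ^ 2 / (2 * Real.pi)) := by
      gcongr
    have i7 : (k : ℝ) ^ 2 * ((∫ θ in (-Real.pi)..Real.pi, md g ε θ ^ 2) -
          (∫ θ in (-Real.pi)..Real.pi, md g ε θ) ^ 2 / (2 * Real.pi)) =
        (k : ℝ) ^ 2 * (∫ θ in (-Real.pi)..Real.pi, md g ε θ ^ 2) -
          ((k : ℝ) ^ 2 - 0 ^ 2) / (2 * Real.pi) *
            (∫ θ in (-Real.pi)..Real.pi, md g ε θ) ^ 2 := by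
      ring
    linarith
  have lim : Tendsto (fun ε : ℝ => (k : ℝ) ^ 2 * ((∫ θ in (-Real.pi)..Real.pi, ‖g θ‖ ^ 2) -
      ((∫ θ in (-Real.pi)..Real.pi, ‖g θ‖) + 2 * Real.pi * ε) ^ 2 / (2 * Real.pi))) (𝓝[>] 0)
      (𝓝 ((k : ℝ) ^ 2 * ((∫ θ in (-Real.pi)..Real.pi, ‖g θ‖ ^ 2) -
      ((∫ θ in (-Real.pi)..Real.pi, ‖g θ‖) + 2 * Real.pi * 0) ^ 2 / (2 * Real.pi)))) := by
    apply Tendsto.mono_left _ nhdsWithin_le_nhds
    exact Continuous.tendsto (by fun_prop) _
  rw [mul_zero, add_zero] at lim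
  refine le_of_tendsto lim ?_
  filter_upwards [self_mem_nhdsWithin] with ε hε
  exact key ε hε

end Pool.Agent.H19.RK
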